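import Mathlib.Analysis.Complex.CauchyIntegral
import Mathlib.Analysis.Calculus.InverseFunctionTheorem.ContDiff
import Mathlib.Analysis.Calculus.ContDiff.Operations
import Mathlib.Analysis.SpecialFunctions.Complex.Analytic
import Mathlib.Topology.ContinuousMap.Compact

/-!
Division lemmas for holomorphic germs with parameters.
-/

namespace Pool.Agent.P.MP_622402_ag

open Filter Topology Metric Complex Real

attribute [fun_prop] analyticAt_fst analyticAt_snd ContinuousLinearMap.analyticAt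

theorem exists_comp {T E : Type*} [TopologicalSpace T] [CompactSpace T] [NormedAddCommGroup E]
    [NormedSpace ℂ E] {h : E → ℂ} {p : FormalMultilinearSeries ℂ E ℂ} {r : ENNReal}
    (hp : HasFPowerSeriesOnBall h p 0 r) : ∃ H : C(T, E) → C(T, ℂ),
      AnalyticOnNhd ℂ H (eball 0 r) ∧ ∀ φ ∈ eball (0 : C(T, E)) r, ∀ t, H φ t = h (φ t) := by
  let q : FormalMultilinearSeries ℂ C(T, E) C(T, ℂ) := fun n =>
    MultilinearMap.mkContinuous
      { toFun := fun φ => ⟨fun t => p n fun i => φ i t, by fun_prop⟩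
        map_update_add' := fun φ i a b => by
          ext t
          have : ∀ c : C(T, E), (fun j => Function.update φ i c j t) =
              Function.update (fun j => φ j t) i (c t) := fun c => by
            funext j; exact Function.apply_update (fun _ (f : C(T, E)) => f t) φ i c j
          simp [this]
        map_update_smul' := fun φ i a b => by
          ext t
          have : ∀ c : C(T, E), (fun j => Function.update φ i c j t) =
              Function.update (fun j => φ j t) i (c t) := fun c => by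
            funext j; exact Function.apply_update (fun _ (f : C(T, E)) => f t) φ i c j
          simp [this] } ‖p n‖ fun φ => (ContinuousMap.norm_le _ (by positivity)).2 fun t =>
      ((p n).le_opNorm _).trans (mul_le_mul_of_nonneg_left (Finset.prod_le_prod
        (fun _ _ => norm_nonneg _) fun i _ => (φ i).norm_coe_le_norm t) (norm_nonneg _))
  have h1 : r ≤ q.radius := hp.r_le.trans (FormalMultilinearSeries.radius_le_of_le fun n =>
    MultilinearMap.mkContinuous_norm_le _ (norm_nonneg _) _)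
  have h2 := (q.hasFPowerSeriesOnBall (hp.r_pos.trans_le h1)).mono hp.r_pos h1
  refine ⟨q.sum, h2.analyticOnNhd, fun φ hφ t => ?_⟩
  have h3 := (ContinuousMap.evalCLM ℂ t).hasSum (h2.hasSum hφ)
  have h4 := hp.hasSum (y := φ t) (by
    rw [mem_eball_zero_iff] at hφ ⊢
    exact lt_of_le_of_lt (enorm_le_iff_norm_le.2 (φ.norm_coe_le_norm t)) hφ)
  rw [zero_add] at h3 h4
  exact h3.unique h4

theorem exists_int : ∃ J : C(Set.Icc (0 : ℝ) (2 * π), ℂ) →L[ℂ] ℂ, ∀ φ (g : ℝ → ℂ),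
    (∀ t : Set.Icc (0 : ℝ) (2 * π), φ t = g t) → J φ = ∫ t in (0 : ℝ)..2 * π, g t := by
  have hpr : Continuous (Set.projIcc 0 (2 * π) two_pi_pos.le) := continuous_projIcc
  refine ⟨LinearMap.mkContinuous
    { toFun := fun φ => ∫ t in (0 : ℝ)..2 * π, φ (Set.projIcc 0 (2 * π) two_pi_pos.le t)
      map_add' := fun φ ψ => intervalIntegral.integral_add
        ((φ.continuous.comp hpr).intervalIntegrable _ _)
        ((ψ.continuous.comp hpr).intervalIntegrable _ _)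
      map_smul' := fun a φ => intervalIntegral.integral_smul a _ } |2 * π - 0| fun φ =>
    (intervalIntegral.norm_integral_le_of_norm_le_const fun t _ => φ.norm_coe_le_norm _).trans_eq
      (mul_comm _ _), fun φ g h => intervalIntegral.integral_congr fun t ht => ?_⟩
  rw [Set.uIcc_of_le two_pi_pos.le] at ht
  simp only [Set.projIcc_of_mem _ ht, h]

variable {P : Type*} [NormedAddCommGroup P] [NormedSpace ℂ P]

/-- Divided differences as functions of the symmetric polynomials. -/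
theorem exists_quot {h : ℂ × P → ℂ} (hh : AnalyticAt ℂ h 0) :
    ∃ W : (ℂ × ℂ) × P → ℂ, AnalyticAt ℂ W 0 ∧ ∀ᶠ z : (ℂ × ℂ) × P in 𝓝 0,
      h (z.1.1, z.2) - h (z.1.2, z.2) =
        (z.1.1 - z.1.2) * W ((z.1.1 + z.1.2, z.1.1 * z.1.2), z.2) := by
  obtain ⟨p, r, hp⟩ : AnalyticAt ℂ (fun z : (ℂ × P) × ℂ => h z.1 * (1 - z.2)⁻¹) 0 :=
    (hh.comp_of_eq analyticAt_fst rfl).mul ((analyticAt_const.sub analyticAt_snd).inv (by simp))
  obtain ⟨ε, hε, h1⟩ := Metric.eventually_nhds_iff_ball.1 hh.eventually_analyticAt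
  obtain ⟨ρ, hρ, h2, h3⟩ : ∃ ρ : ℝ, 0 < ρ ∧ ENNReal.ofReal ρ < r ∧ ρ < ε := by
    obtain ⟨ρ, h2, h3⟩ := ENNReal.lt_iff_exists_real_btwn.1
      (lt_min hp.r_pos (ENNReal.ofReal_pos.2 hε))
    exact ⟨ρ, ENNReal.ofReal_pos.1 h3.1, h3.2.trans_le (min_le_left _ _),
      (ENNReal.ofReal_lt_ofReal_iff hε).1 (h3.2.trans_le (min_le_right _ _))⟩
  obtain ⟨H, h4, h5⟩ := exists_comp (T := Set.Icc (0 : ℝ) (2 * π)) hp
  have hc : ∀ t, circleMap 0 ρ t ≠ 0 := fun t => circleMap_ne_center hρ.ne'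
  have hci : Continuous fun t => (circleMap 0 ρ t)⁻¹ := (continuous_circleMap 0 ρ).inv₀ hc
  obtain ⟨J, hJ⟩ := exists_int
  obtain ⟨ci, hci'⟩ : ∃ ci : C(Set.Icc (0 : ℝ) (2 * π), ℂ), ∀ t, ci t = (circleMap 0 ρ t)⁻¹ :=
    ⟨⟨_, hci.comp continuous_subtype_val⟩, fun _ => rfl⟩
  obtain ⟨φ, hφ, hφ'⟩ : ∃ φ : (ℂ × ℂ) × P → C(Set.Icc (0 : ℝ) (2 * π), (ℂ × P) × ℂ),
      AnalyticAt ℂ φ 0 ∧ ∀ z t, φ z t =
        ((circleMap 0 ρ t, z.2), z.1.1 * ci t - z.1.2 * ci t ^ 2) := by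
    obtain ⟨e0, h0⟩ : ∃ e : C(Set.Icc (0 : ℝ) (2 * π), (ℂ × P) × ℂ),
      ∀ t, e t = ((circleMap 0 ρ t, 0), 0) := ⟨⟨_, by fun_prop⟩, fun _ => rfl⟩
    obtain ⟨e1, h1⟩ : ∃ e : C(Set.Icc (0 : ℝ) (2 * π), (ℂ × P) × ℂ),
      ∀ t, e t = (0, ci t) := ⟨⟨_, by fun_prop⟩, fun _ => rfl⟩
    obtain ⟨e2, h2⟩ : ∃ e : C(Set.Icc (0 : ℝ) (2 * π), (ℂ × P) × ℂ),
      ∀ t, e t = (0, ci t ^ 2) := ⟨⟨_, by fun_prop⟩, fun _ => rfl⟩
    obtain ⟨L, h3⟩ : ∃ L : ((ℂ × P) × ℂ) →L[ℂ] C(Set.Icc (0 : ℝ) (2 * π), (ℂ × P) × ℂ),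
      ∀ z t, L z t = z := ⟨ContinuousLinearMap.const ℂ _, fun _ _ => rfl⟩
    exact ⟨fun z => e0 + L ((0, z.2), 0) + z.1.1 • e1 - z.1.2 • e2, by fun_prop,
      fun z t => by simp [h0, h1, h2, h3]⟩
  have hφ0 : φ 0 ∈ eball (0 : C(Set.Icc (0 : ℝ) (2 * π), (ℂ × P) × ℂ)) r := by
    rw [mem_eball_zero_iff, ← ofReal_norm]
    refine lt_of_le_of_lt (ENNReal.ofReal_le_ofReal ((ContinuousMap.norm_le _ hρ.le).2 fun t => ?_)) h2
    simp [hφ', abs_of_pos hρ, hρ.le]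
  refine ⟨fun z => (2 * π * I)⁻¹ * J (I • ci * H (φ z)), analyticAt_const.mul
    ((J.analyticAt _).comp (analyticAt_const.mul ((h4 _ hφ0).comp hφ))), ?_⟩
  have h6 : Tendsto (fun z : (ℂ × ℂ) × P => ((z.1.1 + z.1.2, z.1.1 * z.1.2), z.2)) (𝓝 0) (𝓝 0) :=
    Continuous.tendsto' (by fun_prop) _ _ (by simp)
  have h7 := h6.eventually (hφ.continuousAt.eventually (isOpen_eball.mem_nhds hφ0))
  filter_upwards [h7, ball_mem_nhds 0 hρ] with ⟨⟨x, y⟩, w⟩ h7 h8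
  simp only [mem_ball_zero_iff, Prod.norm_mk, max_lt_iff] at h8
  have h9 : DifferentiableOn ℂ (fun ζ => h (ζ, w)) (closedBall 0 ρ) := fun ζ hζ =>
    ((h1 (ζ, w) (by
      simp only [mem_ball_zero_iff, mem_closedBall_zero_iff, Prod.norm_mk, max_lt_iff] at hζ ⊢
      exact ⟨hζ.trans_lt h3, h8.2.trans h3⟩)).differentiableAt.comp ζ
        (by fun_prop)).differentiableWithinAt
  have h10 : ∀ a : ℂ, ‖a‖ < ρ → ∀ ζ ∈ sphere (0 : ℂ) ρ, ζ - a ≠ 0 := fun a ha ζ hζ h => by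
    rw [sub_eq_zero.1 h, mem_sphere_zero_iff_norm] at hζ
    exact ha.ne hζ
  have h11 : ∀ a : ℂ, ‖a‖ < ρ → CircleIntegrable (fun ζ => (ζ - a)⁻¹ • h (ζ, w)) 0 ρ := fun a ha =>
    ContinuousOn.circleIntegrable hρ.le (((continuousOn_id.sub continuousOn_const).inv₀
      (h10 a ha)).smul (h9.continuousOn.mono sphere_subset_closedBall))
  have h12 : J (I • ci * H (φ ((x + y, x * y), w))) =
      ∮ ζ in C(0, ρ), h (ζ, w) * ((ζ - x)⁻¹ * (ζ - y)⁻¹) := by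
    refine hJ _ _ fun t => ?_
    have e1 := h10 x h8.1.1 _ (circleMap_mem_sphere 0 hρ.le t)
    have e2 := h10 y h8.1.2 _ (circleMap_mem_sphere 0 hρ.le t)
    have e3 := hc t
    simp only [ContinuousMap.mul_apply, ContinuousMap.smul_apply, h5 _ h7, deriv_circleMap,
      smul_eq_mul, hφ', hci']
    generalize circleMap 0 ρ t = c at *
    have e4 : 1 - ((x + y) * c⁻¹ - x * y * c⁻¹ ^ 2) = (c - x) * (c - y) / c ^ 2 := by
      field_simp; ring
    rw [e4]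
    field_simp
  have h13 := circleIntegral.integral_sub (h11 x h8.1.1) (h11 y h8.1.2)
  rw [h9.circleIntegral_sub_inv_smul (mem_ball_zero_iff.2 h8.1.1),
    h9.circleIntegral_sub_inv_smul (mem_ball_zero_iff.2 h8.1.2),
    circleIntegral.integral_congr hρ.le (g := fun ζ => (x - y) * (h (ζ, w) * ((ζ - x)⁻¹ * (ζ - y)⁻¹)))
      (fun ζ hζ => by
        have e1 := h10 x h8.1.1 _ hζ
        have e2 := h10 y h8.1.2 _ hζ
        simp only [smul_eq_mul]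
        field_simp
        ring), circleIntegral.integral_const_mul, ← h12] at h13
  have := two_pi_I_ne_zero
  simp only [smul_eq_mul] at h13
  field_simp
  linear_combination -h13

theorem comp0 {A B C : Type*} [NormedAddCommGroup A] [NormedSpace ℂ A] [NormedAddCommGroup B]
    [NormedSpace ℂ B] [NormedAddCommGroup C] [NormedSpace ℂ C] {g : B → C} {f : A → B}
    (hg : AnalyticAt ℂ g 0) (hf : AnalyticAt ℂ f 0) (h : f 0 = 0) :
    AnalyticAt ℂ (fun z => g (f z)) 0 := hg.comp_of_eq hf h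

theorem ev0 {A B : Type*} [TopologicalSpace A] [Zero A] [TopologicalSpace B] [Zero B] {f : A → B}
    {p : B → Prop} (hp : ∀ᶠ y in 𝓝 0, p y) (hf : ContinuousAt f 0) (h : f 0 = 0) :
    ∀ᶠ x in 𝓝 0, p (f x) := hf.eventually (h.symm ▸ hp)

theorem cancel {a : ℂ × P → ℂ} (ha : AnalyticAt ℂ a 0) (h : ∀ᶠ z : ℂ × P in 𝓝 0, z.1 * a z = 0) :
    ∀ᶠ z in 𝓝 0, a z = 0 := by
  filter_upwards [ha.eventually_analyticAt, h.eventually_nhds] with ⟨x, w⟩ h1 h2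
  by_cases hx : x = 0
  · subst hx
    have h3 : ContinuousAt (fun s : ℂ => (s, w)) 0 := by fun_prop
    refine tendsto_nhds_unique ((h1.continuousAt.comp_of_eq h3 rfl).tendsto.mono_left
      (nhdsWithin_le_nhds (s := {0}ᶜ))) (tendsto_const_nhds.congr' ?_)
    filter_upwards [(h3.eventually h2).filter_mono nhdsWithin_le_nhds, self_mem_nhdsWithin]
      with s h4 h5
    exact ((mul_eq_zero.1 h4).resolve_left h5).symm
  · exact (mul_eq_zero.1 h2.self_of_nhds).resolve_left hx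

theorem cancel1 {a : ℂ → ℂ} (ha : AnalyticAt ℂ a 0) (h : ∀ᶠ x in 𝓝 0, x * a x = 0) :
    ∀ᶠ x in 𝓝 0, a x = 0 :=
  ev0 (f := fun x : ℂ => (x, (0 : ℂ))) (cancel (a := fun z : ℂ × ℂ => a z.1)
    (comp0 ha analyticAt_fst rfl) (ev0 h continuousAt_fst rfl)) (by fun_prop) rfl

/-- Division by `x - b w`. -/
theorem exists_div {h : ℂ × P → ℂ} (hh : AnalyticAt ℂ h 0) {b : P → ℂ} (hb : AnalyticAt ℂ b 0)
    (h0 : b 0 = 0) : ∃ Q : ℂ × P → ℂ, AnalyticAt ℂ Q 0 ∧ ∀ᶠ z : ℂ × P in 𝓝 0,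
      h z = h (b z.2, z.2) + (z.1 - b z.2) * Q z := by
  obtain ⟨W, h1, h2⟩ := exists_quot hh
  have h3 : AnalyticAt ℂ (fun z : ℂ × P => b z.2) 0 := comp0 hb analyticAt_snd rfl
  refine ⟨fun z => W ((z.1 + b z.2, z.1 * b z.2), z.2), comp0 h1 (by fun_prop) (by simp [h0]), ?_⟩
  filter_upwards [ev0 (f := fun z : ℂ × P => ((z.1, b z.2), z.2)) h2
    (AnalyticAt.continuousAt (𝕜 := ℂ) (by fun_prop)) (by simp [h0])] with z hz
  exact sub_eq_iff_eq_add'.1 hz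

/-- Even and odd parts. -/
theorem exists_even_odd {h : ℂ × P → ℂ} (hh : AnalyticAt ℂ h 0) :
    ∃ A B : ℂ × P → ℂ, AnalyticAt ℂ A 0 ∧ AnalyticAt ℂ B 0 ∧ ∀ᶠ z : ℂ × P in 𝓝 0,
      h z = A (z.1 ^ 2, z.2) + z.1 * B (z.1 ^ 2, z.2) := by
  have key : ∀ h : ℂ × P → ℂ, AnalyticAt ℂ h 0 → ∃ B : ℂ × P → ℂ, AnalyticAt ℂ B 0 ∧
      ∀ᶠ z : ℂ × P in 𝓝 0, h z - h (-z.1, z.2) = 2 * z.1 * B (z.1 ^ 2, z.2) := by
    intro h hh
    obtain ⟨W, h1, h2⟩ := exists_quot hh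
    refine ⟨fun z => W ((0, -z.1), z.2), comp0 h1 (by fun_prop) (by simp), ?_⟩
    filter_upwards [ev0 (f := fun z : ℂ × P => ((z.1, -z.1), z.2)) h2 (by fun_prop) (by simp)]
      with z hz
    simp only [add_neg_cancel, mul_neg, ← sq] at hz
    rw [hz]; ring
  obtain ⟨B, h1, h2⟩ := key h hh
  obtain ⟨A, h3, h4⟩ := key (fun z => z.1 * h z) (by fun_prop)
  refine ⟨A, B, h3, h1, ?_⟩
  have h5 : ∀ C : ℂ × P → ℂ, AnalyticAt ℂ C 0 → AnalyticAt ℂ (fun z : ℂ × P => C (z.1 ^ 2, z.2)) 0 :=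
    fun C hC => comp0 hC (by fun_prop) (by simp)
  have h6 := h5 A h3
  have h7 := h5 B h1
  filter_upwards [cancel (a := fun z => h z - (A (z.1 ^ 2, z.2) + z.1 * B (z.1 ^ 2, z.2)))
    (hh.sub (h6.add (analyticAt_fst.mul h7))) (by
      filter_upwards [h2, h4] with z e1 e2
      linear_combination (z.1 * e1 + e2) / 2)] with z hz using sub_eq_zero.1 hz

theorem eq_of_sq {A B A' B' : ℂ → ℂ} (hB : AnalyticAt ℂ B 0) (hB' : AnalyticAt ℂ B' 0)
    (h : ∀ᶠ s in 𝓝 (0 : ℂ), A (s ^ 2) + s * B (s ^ 2) = A' (s ^ 2) + s * B' (s ^ 2)) :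
    ∀ᶠ X in 𝓝 (0 : ℂ), A X = A' X ∧ B X = B' X := by
  have h1 := ev0 (f := fun s : ℂ => -s) h (by fun_prop) (by simp)
  have h2 := cancel1 (a := fun s => B (s ^ 2) - B' (s ^ 2))
    ((comp0 hB (by fun_prop) (by simp)).sub (comp0 hB' (by fun_prop) (by simp))) (by
      filter_upwards [h, h1] with s e1 e2
      simp only [neg_sq] at e2
      linear_combination (e1 - e2) / 2)
  obtain ⟨ε, hε, h3⟩ := Metric.eventually_nhds_iff_ball.1 (h.and h2)
  filter_upwards [ball_mem_nhds 0 (sq_pos_of_pos hε)] with X hX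
  obtain ⟨s, rfl⟩ : ∃ s, s ^ 2 = X := ⟨_, cpow_nat_inv_pow X two_ne_zero⟩
  rw [mem_ball_zero_iff, norm_pow, sq_lt_sq₀ (norm_nonneg _) hε.le] at hX
  obtain ⟨e1, e2⟩ := h3 s (mem_ball_zero_iff.2 hX)
  exact ⟨by linear_combination e1 - s * e2, sub_eq_zero.1 e2⟩

/-- Inverse function theorem for unfoldings of the identity. -/
theorem exists_inv [CompleteSpace P] {R : ℂ × P → ℂ} (hR : AnalyticAt ℂ R 0)
    (h : ∀ᶠ x in 𝓝 (0 : ℂ), R (x, 0) = x) : ∃ ρ : ℂ × P → ℂ, AnalyticAt ℂ ρ 0 ∧ ρ 0 = 0 ∧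
      (∀ᶠ z : ℂ × P in 𝓝 0, R (ρ z, z.2) = z.1) ∧ ∀ᶠ z : ℂ × P in 𝓝 0, ρ (R z, z.2) = z.1 := by
  have h0 : R 0 = 0 := h.self_of_nhds
  have h1 := hR.differentiableAt.hasFDerivAt
  set D := fderiv ℂ R 0
  have h2 : ∀ x : ℂ, D (x, 0) = x := by
    have h3 := h1.comp (0 : ℂ) (f := fun x : ℂ => (x, (0 : P))) (hasFDerivAt_prodMk_left 0 0)
    have h4 := h3.unique ((hasFDerivAt_id (0 : ℂ)).congr_of_eventuallyEq h)
    exact fun x => congr($h4 x)
  have h3 : ∀ z : ℂ × P, D z = z.1 + D (0, z.2) := fun z => by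
    rw [← h2 z.1, ← map_add]; simp
  let L : (ℂ × P) ≃L[ℂ] (ℂ × P) := ContinuousLinearEquiv.equivOfInverse
    (D.prod (ContinuousLinearMap.snd ℂ ℂ P))
    ((ContinuousLinearMap.fst ℂ ℂ P - D.comp ((ContinuousLinearMap.inr ℂ ℂ P).comp
      (ContinuousLinearMap.snd ℂ ℂ P))).prod (ContinuousLinearMap.snd ℂ ℂ P))
    (fun z => by simp [h3 z]) (fun z => by simp [h3 (z.1 - D (0, z.2), z.2)])
  have h4 : HasFDerivAt (fun z : ℂ × P => (R z, z.2)) (L : (ℂ × P) →L[ℂ] (ℂ × P)) 0 :=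
    h1.prodMk hasFDerivAt_snd
  have h5 : ContDiffAt ℂ ⊤ (fun z : ℂ × P => (R z, z.2)) 0 := (hR.prod analyticAt_snd).contDiffAt
  have h6 := (h5.to_localInverse h4 (by simp)).analyticAt
  have h7 := (h5.hasStrictFDerivAt' h4 (by simp)).eventually_left_inverse
  have h8 := (h5.hasStrictFDerivAt' h4 (by simp)).eventually_right_inverse
  have h9 : (R 0, (0 : ℂ × P).2) = 0 := by simp [h0]
  simp only [ContDiffAt.localInverse, h9] at h6 h8
  set σ := (h5.hasStrictFDerivAt' h4 (by simp)).localInverse _ _ _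
  refine ⟨fun z => (σ z).1, by fun_prop, ?_, ?_, h7.mono fun z hz => congrArg Prod.fst hz⟩
  · have := h7.self_of_nhds
    rw [h9] at this
    simp [this]
  · filter_upwards [h8] with z hz
    rw [← (Prod.ext_iff.1 hz).2]
    exact (Prod.ext_iff.1 hz).1

theorem slice {a : ℂ × P → ℂ} (ha : AnalyticAt ℂ a 0) : AnalyticAt ℂ (fun x : ℂ => a (x, 0)) 0 :=
  comp0 ha (by fun_prop) rfl

omit [NormedSpace ℂ P] in
theorem ev_slice {p : ℂ × P → Prop} (h : ∀ᶠ z in 𝓝 0, p z) : ∀ᶠ x : ℂ in 𝓝 0, p (x, 0) :=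
  ev0 (f := fun x : ℂ => (x, (0 : P))) h (by fun_prop) rfl

/-- Preparation for an unfolding of a coordinate function. -/
theorem exists_root [CompleteSpace P] {R : ℂ × P → ℂ} (hR : AnalyticAt ℂ R 0)
    (h : ∀ᶠ x in 𝓝 (0 : ℂ), R (x, 0) = x) : ∃ b : P → ℂ, AnalyticAt ℂ b 0 ∧ b 0 = 0 ∧
      ∀ᶠ w in 𝓝 0, R (b w, w) = 0 := by
  obtain ⟨ρ, h1, h2, h3, -⟩ := exists_inv hR h
  exact ⟨fun w => ρ (0, w), comp0 h1 (by fun_prop) rfl, h2,
    ev0 (f := fun w : P => ((0 : ℂ), w)) h3 (by fun_prop) rfl⟩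

/-- Morse lemma with parameters. -/
theorem exists_morse [CompleteSpace P] {g : ℂ × P → ℂ} (hg : AnalyticAt ℂ g 0)
    (h : ∀ᶠ x in 𝓝 (0 : ℂ), g (x, 0) = x ^ 2) : ∃ (φ : ℂ × P → ℂ) (c : P → ℂ), AnalyticAt ℂ φ 0 ∧
      AnalyticAt ℂ c 0 ∧ c 0 = 0 ∧ (∀ᶠ x in 𝓝 (0 : ℂ), φ (x, 0) = x) ∧
      ∀ᶠ z in 𝓝 0, g z = φ z ^ 2 + c z.2 := by
  obtain ⟨A, B, h1, h2, h3⟩ := exists_even_odd (P := ℂ × P)
    (h := fun z => g (z.2.1 + z.1, z.2.2)) (comp0 hg (by fun_prop) (by simp))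
  have h4 : ∀ᶠ y in 𝓝 (0 : ℂ), B (0, (y, 0)) / 2 = y := by
    have e1 := ev0 (f := fun z : ℂ × ℂ => (z.1, (z.2, (0 : P)))) h3 (by fun_prop) rfl
    have e2 := ev0 (f := fun z : ℂ × ℂ => (-z.1, (z.2, (0 : P)))) h3 (by fun_prop) (by simp)
    have e3 := ev0 (f := fun z : ℂ × ℂ => z.2 + z.1) h (by fun_prop) (by simp)
    have e4 := ev0 (f := fun z : ℂ × ℂ => z.2 + -z.1) h (by fun_prop) (by simp)
    have e5 := cancel (a := fun z : ℂ × ℂ => B (z.1 ^ 2, (z.2, 0)) - 2 * z.2)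
      ((comp0 h2 (by fun_prop) (by simp)).sub (by fun_prop)) (by
        filter_upwards [e1, e2, e3, e4] with z e1 e2 e3 e4
        simp only [neg_sq] at e2
        linear_combination (e2 - e1 + e3 - e4) / 2)
    filter_upwards [ev0 (f := fun y : ℂ => ((0 : ℂ), y)) e5 (by fun_prop) rfl] with y hy
    simp only [ne_eq, OfNat.ofNat_ne_zero, not_false_eq_true, zero_pow] at hy
    linear_combination hy / 2
  obtain ⟨b, h5, h6, h7⟩ := exists_root (R := fun z : ℂ × P => B (0, z) / 2)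
    ((comp0 h2 (by fun_prop) rfl).div_const) h4
  obtain ⟨A', h8, h9⟩ := exists_div h1 analyticAt_const (b := fun _ => 0) rfl
  obtain ⟨B', h10, h11⟩ := exists_div h2 analyticAt_const (b := fun _ => 0) rfl
  have h12 : AnalyticAt ℂ (fun z : ℂ × P => b z.2) 0 := comp0 h5 analyticAt_snd rfl
  have h13 : AnalyticAt ℂ (fun z : ℂ × P => ((z.1 - b z.2) ^ 2, (b z.2, z.2))) 0 := by fun_prop
  obtain ⟨Q, h14, h15⟩ : ∃ Q : ℂ × P → ℂ, AnalyticAt ℂ Q 0 ∧
      ∀ᶠ z in 𝓝 0, g z = (z.1 - b z.2) ^ 2 * Q z + A (0, (b z.2, z.2)) := by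
    refine ⟨fun z => A' ((z.1 - b z.2) ^ 2, (b z.2, z.2)) +
      (z.1 - b z.2) * B' ((z.1 - b z.2) ^ 2, (b z.2, z.2)), (comp0 h8 h13 (by simp [h6])).add
      ((analyticAt_fst.sub h12).mul (comp0 h10 h13 (by simp [h6]))), ?_⟩
    filter_upwards [ev0 h9 h13.continuousAt (by simp [h6]), ev0 h11 h13.continuousAt (by simp [h6]),
      ev0 (f := fun z : ℂ × P => (z.1 - b z.2, (b z.2, z.2))) h3
        (AnalyticAt.continuousAt (𝕜 := ℂ) (by fun_prop)) (by simp [h6]),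
      ev0 h7 continuousAt_snd rfl] with z e1 e2 e3 e4
    simp only [add_sub_cancel, sub_zero] at e1 e2 e3
    linear_combination e3 + e1 + (z.1 - b z.2) * e2 + 2 * (z.1 - b z.2) * e4
  have h16 : A 0 = 0 := by
    have := h15.self_of_nhds
    have e := h.self_of_nhds
    simp only [Prod.fst_zero, Prod.snd_zero, h6, Prod.mk_zero_zero] at this e
    linear_combination e - this
  have h17 : ∀ᶠ x in 𝓝 (0 : ℂ), Q (x, 0) - 1 = 0 :=
    cancel1 ((slice h14).sub analyticAt_const) (cancel1 (analyticAt_id.mul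
      ((slice h14).sub analyticAt_const)) (by
        filter_upwards [ev_slice h15, h] with x e1 e2
        simp only [h6, Prod.mk_zero_zero, h16] at e1
        linear_combination e2 - e1))
  have h18 : Q 0 = 1 := sub_eq_zero.1 h17.self_of_nhds
  refine ⟨fun z => (z.1 - b z.2) * Q z ^ (2⁻¹ : ℂ), fun w => A (0, (b w, w)),
    (analyticAt_fst.sub h12).mul (h14.cpow analyticAt_const (h18 ▸ one_mem_slitPlane)),
    comp0 h1 (by fun_prop) (by simp [h6]), by simpa only [h6, Prod.mk_zero_zero] using h16, ?_, ?_⟩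
  · filter_upwards [h17] with x hx
    simp [h6, sub_eq_zero.1 hx]
  · filter_upwards [h15] with z hz
    rw [mul_pow, cpow_ofNat_inv_pow, hz]

theorem exists_versal [CompleteSpace P] {g1 g2 g3 : ℂ × P → ℂ} (a1 : AnalyticAt ℂ g1 0)
    (a2 : AnalyticAt ℂ g2 0) (a3 : AnalyticAt ℂ g3 0) (b1 : ∀ᶠ x in 𝓝 (0 : ℂ), g1 (x, 0) = x ^ 2)
    (b2 : ∀ᶠ x in 𝓝 (0 : ℂ), g2 (x, 0) = x ^ 3) (b3 : ∀ᶠ x in 𝓝 (0 : ℂ), g3 (x, 0) = 0) :
    ∃ (φ : ℂ × P → ℂ) (c u v : P → ℂ) (A U C E : ℂ × P → ℂ), AnalyticAt ℂ φ 0 ∧ AnalyticAt ℂ c 0 ∧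
      AnalyticAt ℂ u 0 ∧ AnalyticAt ℂ v 0 ∧ AnalyticAt ℂ A 0 ∧ AnalyticAt ℂ U 0 ∧
      AnalyticAt ℂ C 0 ∧ AnalyticAt ℂ E 0 ∧ c 0 = 0 ∧ u 0 = 0 ∧ v 0 = 0 ∧
      (∀ᶠ x in 𝓝 (0 : ℂ), φ (x, 0) = x) ∧
      (∀ᶠ x in 𝓝 (0 : ℂ), A (x, 0) = 0 ∧ U (x, 0) = 1 ∧ C (x, 0) = 0 ∧ E (x, 0) = 0) ∧
      ∀ᶠ z in 𝓝 0, g1 z = φ z ^ 2 + c z.2 ∧
        g2 z = A (φ z ^ 2, z.2) + (φ z ^ 3 + u z.2 * φ z) * U (φ z ^ 2, z.2) ∧
        g3 z = C (φ z ^ 2, z.2) + (φ z ^ 3 + u z.2 * φ z) * E (φ z ^ 2, z.2) + v z.2 * φ z := by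
  obtain ⟨φ, c, h1, h2, h3, h4, h5⟩ := exists_morse a1 b1
  obtain ⟨ρ, h6, h7, -, h8⟩ := exists_inv h1 h4
  have h9 : AnalyticAt ℂ (fun z : ℂ × P => (ρ z, z.2)) 0 := by fun_prop
  have h10 : ∀ᶠ x in 𝓝 (0 : ℂ), ρ (x, 0) = x := by
    filter_upwards [ev_slice h8, h4] with x e1 e2
    rwa [e2] at e1
  obtain ⟨A, B, c1, c2, c3⟩ := exists_even_odd (comp0 a2 h9 (by simp [h7]))
  obtain ⟨C, D, d1, d2, d3⟩ := exists_even_odd (comp0 a3 h9 (by simp [h7]))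
  have c4 := eq_of_sq (A := fun X => A (X, 0)) (A' := fun _ => 0) (slice c2) analyticAt_id (by
    filter_upwards [ev_slice c3, h10, b2] with x e1 e2 e3
    simp only [e2, id] at e1 ⊢
    linear_combination e3 - e1)
  have d4 := eq_of_sq (A := fun X => C (X, 0)) (A' := fun _ => 0) (B' := fun _ => 0) (slice d2)
    analyticAt_const (by
    filter_upwards [ev_slice d3, h10, b3] with x e1 e2 e3
    simp only [e2] at e1
    linear_combination e3 - e1)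
  obtain ⟨b, c5, c6, c7⟩ := exists_root c2 (c4.mono fun _ h => h.2)
  obtain ⟨U, c8, c9⟩ := exists_div c2 c5 c6
  obtain ⟨E, d8, d9⟩ := exists_div d2 c5 c6
  have c10 := cancel1 (a := fun x => U (x, 0) - 1) ((slice c8).sub analyticAt_const) (by
    filter_upwards [ev_slice c9, c4] with x e1 e2
    have e3 := c7.self_of_nhds
    simp only [id, c6] at e1 e2 e3
    linear_combination e2.2 - e1 - e3)
  have d10 := cancel1 (slice d8) (by
    filter_upwards [ev_slice d9, d4] with x e1 e2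
    have e3 := d4.self_of_nhds.2
    simp only [c6] at e1
    linear_combination e2.2 - e1 - e3)
  have h11 : φ 0 = 0 := h4.self_of_nhds
  refine ⟨φ, c, fun w => -b w, fun w => D (b w, w), A, U, C, E, h1, h2, c5.neg,
    comp0 d2 (by fun_prop) (by simp [c6]), c1, c8, d1, d8, h3, by simp [c6],
    by simpa [c6] using d4.self_of_nhds.2, h4, ?_, ?_⟩
  · filter_upwards [c4, d4, c10, d10] with x e1 e2 e3 e4 using ⟨e1.1, sub_eq_zero.1 e3, e2.1, e4⟩
  · have e1 : ContinuousAt (fun z : ℂ × P => (φ z, z.2)) 0 := h1.continuousAt.prodMk continuousAt_snd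
    have e2 : ContinuousAt (fun z : ℂ × P => (φ z ^ 2, z.2)) 0 :=
      (h1.continuousAt.pow 2).prodMk continuousAt_snd
    filter_upwards [h5, h8, ev0 c3 e1 (by simp [h11]), ev0 d3 e1 (by simp [h11]),
      ev0 c9 e2 (by simp [h11]), ev0 d9 e2 (by simp [h11]), ev0 c7 continuousAt_snd rfl]
      with z f1 f2 f3 f4 f5 f6 f7
    simp only [f2, Prod.mk.eta] at f3 f4 f5 f6
    exact ⟨f1, by linear_combination f3 + φ z * f5 + φ z * f7, by linear_combination f4 + φ z * f6⟩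

end Pool.Agent.P.MP_622402_ag
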