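import Mathlib.Analysis.Analytic.Basic
import Mathlib.Analysis.Calculus.FDeriv.Defs
import Mathlib.Analysis.Complex.Basic
import Mathlib.Analysis.Convex.StdSimplex
import Mathlib.GroupTheory.Perm.Sign
import Mathlib.LinearAlgebra.Finsupp.Supported
import Mathlib.LinearAlgebra.Quotient.Defs

/-!
Holomorphic map germs, unfoldings, multiple point spaces and alternating singular homology.
-/

namespace Pool.Agent.P.MP_622402_ag

open Filter Topology

/-- Finite `A_e`-codimension: the germs of vector fields along `f` are spanned, modulo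
`tf(θ_n) + ωf(θ_p)`, by finitely many of them. -/
def AFinite {n p : ℕ} (f : (Fin n → ℂ) → (Fin p → ℂ)) : Prop :=
  ∃ (m : ℕ) (ξ : Fin m → (Fin n → ℂ) → (Fin p → ℂ)), (∀ i, AnalyticAt ℂ (ξ i) 0) ∧
    ∀ θ : (Fin n → ℂ) → (Fin p → ℂ), AnalyticAt ℂ θ 0 →
      ∃ (a : (Fin n → ℂ) → (Fin n → ℂ)) (b : (Fin p → ℂ) → (Fin p → ℂ)) (c : Fin m → ℂ),
        AnalyticAt ℂ a 0 ∧ AnalyticAt ℂ b 0 ∧
          ∀ᶠ x in 𝓝 0, θ x = fderiv ℂ f x (a x) + b (f x) + ∑ i, c i • ξ i x

/-- `(x, u) ↦ (F (x, u), u)` is an unfolding of the germ `f`. -/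
def Unfolds {n p r : ℕ} (F : (Fin n → ℂ) × (Fin r → ℂ) → (Fin p → ℂ))
    (f : (Fin n → ℂ) → (Fin p → ℂ)) : Prop :=
  AnalyticAt ℂ F 0 ∧ ∀ᶠ x in 𝓝 0, F (x, 0) = f x

/-- Versal unfolding: every unfolding is equivalent, by unfoldings of the identities of source
and target, to a pull-back. -/
def Versal {n p d : ℕ} (F : (Fin n → ℂ) × (Fin d → ℂ) → (Fin p → ℂ))
    (f : (Fin n → ℂ) → (Fin p → ℂ)) : Prop :=
  Unfolds F f ∧ ∀ (r : ℕ) (G : (Fin n → ℂ) × (Fin r → ℂ) → (Fin p → ℂ)), Unfolds G f →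
    ∃ (h : (Fin r → ℂ) → (Fin d → ℂ)) (φ : (Fin n → ℂ) × (Fin r → ℂ) → (Fin n → ℂ))
      (ψ : (Fin p → ℂ) × (Fin r → ℂ) → (Fin p → ℂ)), AnalyticAt ℂ h 0 ∧ h 0 = 0 ∧
      Unfolds φ id ∧ Unfolds ψ id ∧ ∀ᶠ z in 𝓝 0, ψ (G z, z.2) = F (φ z, h z.2)

/-- The multiple point space `D^k` of the restriction of `g` to `U`. -/
def multPts {X Y : Type} [TopologicalSpace X] (k : ℕ) (g : X → Y) (U : Set X) :
    Set (Fin k → X) :=
  {x | ∀ i, x i ∈ U} ∩
    closure {x | (∀ i, x i ∈ U) ∧ Function.Injective x ∧ ∀ i j, g (x i) = g (x j)}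

/-- Singular `q`-chains with integer coefficients. -/
abbrev Chain (Y : Type) [TopologicalSpace Y] (q : ℕ) : Type :=
  C(stdSimplex ℝ (Fin (q + 1)), Y) →₀ ℤ

/-- The `i`-th face of the standard simplex. -/
noncomputable def face {q : ℕ} (i : Fin (q + 2)) :
    C(stdSimplex ℝ (Fin (q + 1)), stdSimplex ℝ (Fin (q + 2))) :=
  ⟨stdSimplex.map i.succAbove, stdSimplex.continuous_map _⟩

/-- The singular boundary. -/
noncomputable def bd (Y : Type) [TopologicalSpace Y] (q : ℕ) : Chain Y (q + 1) →ₗ[ℤ] Chain Y q :=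
  ∑ i : Fin (q + 2), (-1 : ℤ) ^ (i : ℕ) • Finsupp.lmapDomain ℤ ℤ fun s => s.comp (face i)

/-- Permuting the factors. -/
def permute {X : Type} [TopologicalSpace X] {k : ℕ} (σ : Equiv.Perm (Fin k)) :
    C(Fin k → X, Fin k → X) :=
  ⟨fun x i => x (σ i), continuous_pi fun i => continuous_apply (σ i)⟩

/-- Alternating singular chains of a subspace `A` of `X^k`. -/
noncomputable def altChains {X : Type} [TopologicalSpace X] {k : ℕ} (A : Set (Fin k → X)) (q : ℕ) :
    Submodule ℤ (Chain (Fin k → X) q) :=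
  Finsupp.supported ℤ ℤ {s | Set.range s ⊆ A} ⊓ ⨅ σ : Equiv.Perm (Fin k),
    LinearMap.eqLocus (Finsupp.lmapDomain ℤ ℤ fun s => (permute σ).comp s)
      ((Equiv.Perm.sign σ : ℤ) • LinearMap.id)

/-- Relative alternating cycles of degree `q + 1`. -/
noncomputable def relCycles {X : Type} [TopologicalSpace X] {k : ℕ} (B A : Set (Fin k → X))
    (q : ℕ) : Submodule ℤ (Chain (Fin k → X) (q + 1)) :=
  altChains B (q + 1) ⊓ (altChains A q).comap (bd _ q)

/-- Relative alternating boundaries of degree `q + 1`. -/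
noncomputable def relBoundaries {X : Type} [TopologicalSpace X] {k : ℕ} (B A : Set (Fin k → X))
    (q : ℕ) : Submodule ℤ (Chain (Fin k → X) (q + 1)) :=
  (altChains B (q + 2)).map (bd _ (q + 1)) ⊔ altChains A (q + 1)

/-- The alternating homology group `H^Alt_(q+1)(B, A)`. -/
def HAlt {X : Type} [TopologicalSpace X] {k : ℕ} (B A : Set (Fin k → X)) (q : ℕ) : Type :=
  relCycles B A q ⧸ (relBoundaries B A q).submoduleOf (relCycles B A q)

/-- The member at the parameter value `u` of the representative on `U` of the unfolding `F` has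
unexpected homology. -/
def Unexpected {n p d : ℕ} (F : (Fin n → ℂ) × (Fin d → ℂ) → (Fin p → ℂ))
    (U : Set ((Fin n → ℂ) × (Fin d → ℂ))) (u : Fin d → ℂ) : Prop :=
  ¬ (p - n ∣ p) ∧ ∃ k : ℕ, p < k * (p - n) ∧
    Nontrivial (HAlt (multPts k (fun z => (F z, z.2)) U)
      {x ∈ multPts k (fun z => (F z, z.2)) U | ∀ i, (x i).2 = u} 0)

end Pool.Agent.P.MP_622402_ag
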