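import Mathlib.Topology.Connected.TotallyDisconnected
import Mathlib.LinearAlgebra.Dimension.Finrank
import Pool.Agent.P.MP_622402_ag.Analytic
import Pool.Agent.P.MP_622402_ag.Defs

/-!
The cusp in three-space and its versal unfolding.
-/

namespace Pool.Agent.P.MP_622402_ag

open Filter Topology

noncomputable def cusp (x : Fin 1 → ℂ) : Fin 3 → ℂ := ![x 0 ^ 2, x 0 ^ 3, 0]

noncomputable def unf (z : (Fin 1 → ℂ) × (Fin 2 → ℂ)) : Fin 3 → ℂ :=
  ![z.1 0 ^ 2, z.1 0 ^ 3 + z.2 0 * z.1 0, z.2 1 * z.1 0]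

@[fun_prop] theorem analyticAt_coord {n : ℕ} (i : Fin n) (x : Fin n → ℂ) :
    AnalyticAt ℂ (fun x : Fin n → ℂ => x i) x :=
  (ContinuousLinearMap.proj (R := ℂ) (φ := fun _ : Fin n => ℂ) i).analyticAt x

theorem analyticAt_cusp (x : Fin 1 → ℂ) : AnalyticAt ℂ cusp x :=
  analyticAt_pi_iff.2 fun i => by
    have := analyticAt_coord 0 x
    fin_cases i <;> simp only [cusp] <;> simp <;> fun_prop

theorem analyticAt_unf (z : (Fin 1 → ℂ) × (Fin 2 → ℂ)) : AnalyticAt ℂ unf z :=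
  analyticAt_pi_iff.2 fun i => by
    have h1 : AnalyticAt ℂ (fun z : (Fin 1 → ℂ) × (Fin 2 → ℂ) => z.1 0) z :=
      (analyticAt_coord 0 _).comp analyticAt_fst
    have h2 : ∀ j, AnalyticAt ℂ (fun z : (Fin 1 → ℂ) × (Fin 2 → ℂ) => z.2 j) z :=
      fun j => (analyticAt_coord j _).comp analyticAt_snd
    fin_cases i
    exacts [h1.pow 2, (h1.pow 3).add ((h2 0).mul h1), (h2 1).mul h1]

theorem const_coord (x : Fin 1 → ℂ) : (fun _ => x 0) = x := funext fun i => by rw [Fin.eq_zero i]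

theorem analyticAt_diag (s : ℂ) : AnalyticAt ℂ (fun (s : ℂ) (_ : Fin 1) => s) s :=
  analyticAt_pi_iff.2 fun _ => analyticAt_id

theorem decomp {h : ℂ → ℂ} (hh : AnalyticAt ℂ h 0) : ∃ (A E : ℂ → ℂ) (c : ℂ), AnalyticAt ℂ A 0 ∧
    AnalyticAt ℂ E 0 ∧ ∀ᶠ s in 𝓝 (0 : ℂ), h s = A (s ^ 2) + s ^ 3 * E (s ^ 2) + c * s := by
  obtain ⟨A, B, h1, h2, h3⟩ := exists_even_odd (h := fun z : ℂ × ℂ => h z.1)
    (comp0 hh analyticAt_fst rfl)
  obtain ⟨E, h4, h5⟩ := exists_div h2 analyticAt_const (b := fun _ => 0) rfl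
  refine ⟨_, _, B 0, slice h1, slice h4, ?_⟩
  filter_upwards [ev_slice h3, ev0 (f := fun s : ℂ => s ^ 2) (ev_slice h5) (by fun_prop) (by simp)]
    with s e1 e2
  simp only [Prod.mk_zero_zero] at e1 e2
  linear_combination e1 + s * e2

theorem aFinite_cusp : AFinite cusp := by
  refine ⟨3, fun j x => Pi.single j (x 0), fun j => analyticAt_pi_iff.2 fun i => ?_, fun θ hθ => ?_⟩
  · by_cases h : i = j
    · simpa [h] using analyticAt_coord 0 0
    · simpa [h] using analyticAt_const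
  choose A E c h1 h2 h3 using fun j => decomp (h := fun s => θ (fun _ => s) j)
    (comp0 (analyticAt_pi_iff.1 hθ j) (analyticAt_diag 0) rfl)
  refine ⟨0, fun y j => A j (y 0) + y 1 * E j (y 0), c, analyticAt_const,
    analyticAt_pi_iff.2 fun j => (comp0 (h1 j) (analyticAt_coord 0 0) rfl).add
      ((analyticAt_coord 1 0).mul (comp0 (h2 j) (analyticAt_coord 0 0) rfl)), ?_⟩
  filter_upwards [ev0 (f := fun x : Fin 1 → ℂ => x 0) (eventually_all.2 h3)
    (continuous_apply 0).continuousAt rfl]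
    with x hx
  funext j
  have := hx j
  rw [const_coord] at this
  simp [this, cusp, Finset.sum_apply, Pi.single_apply]

theorem fderiv_cusp : fderiv ℂ cusp 0 = 0 := by
  have h : HasFDerivAt (fun x : Fin 1 → ℂ => x 0) _ 0 := hasFDerivAt_apply (𝕜 := ℂ) 0 0
  refine HasFDerivAt.fderiv (hasFDerivAt_pi'.2 fun i => ?_)
  fin_cases i
  · exact (h.pow 2).congr_fderiv (by ext; simp)
  · exact (h.pow 3).congr_fderiv (by ext; simp)
  · simpa [cusp] using hasFDerivAt_const (0 : ℂ) (0 : Fin 1 → ℂ)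

theorem versal_unf : Versal unf cusp := by
  refine ⟨⟨analyticAt_unf 0, Eventually.of_forall fun x => by simp [unf, cusp]⟩,
    fun r G ⟨hG, hG0⟩ => ?_⟩
  have a : ∀ j, AnalyticAt ℂ (fun z : ℂ × (Fin r → ℂ) => G (fun _ => z.1, z.2) j) 0 := fun j =>
    comp0 (analyticAt_pi_iff.1 hG j) (((analyticAt_diag _).comp analyticAt_fst).prod analyticAt_snd) rfl
  have b := ev0 (f := fun (s : ℂ) (_ : Fin 1) => s) hG0 (by fun_prop) rfl
  obtain ⟨φ, c, u, v, A, U, C, E, h1, h2, h3, h4, h5, h6, h7, h8, h9, h10, h11, h12, h13, h14⟩ :=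
    exists_versal (a 0) (a 1) (a 2) (b.mono fun x h => by simp [h, cusp])
      (b.mono fun x h => by simp [h, cusp]) (b.mono fun x h => by simp [h, cusp])
  have h15 : U 0 = 1 := h13.self_of_nhds.2.1
  have h16 : AnalyticAt ℂ (fun z : (Fin 1 → ℂ) × (Fin r → ℂ) => (z.1 0, z.2)) 0 :=
    ((analyticAt_coord 0 _).comp analyticAt_fst).prod analyticAt_snd
  have h17 : ∀ j, AnalyticAt ℂ (fun z : (Fin 3 → ℂ) × (Fin r → ℂ) => z.1 j) 0 :=
    fun j => (analyticAt_coord j _).comp analyticAt_fst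
  have h18 : AnalyticAt ℂ (fun z : (Fin 3 → ℂ) × (Fin r → ℂ) => z.1 0 - c z.2) 0 :=
    (h17 0).sub (comp0 h2 analyticAt_snd rfl)
  have h19 : ∀ D : ℂ × (Fin r → ℂ) → ℂ, AnalyticAt ℂ D 0 →
      AnalyticAt ℂ (fun z : (Fin 3 → ℂ) × (Fin r → ℂ) => D (z.1 0 - c z.2, z.2)) 0 :=
    fun D hD => comp0 hD (h18.prod analyticAt_snd) (by simp [h9])
  have h20 : AnalyticAt ℂ (fun z : (Fin 3 → ℂ) × (Fin r → ℂ) =>
      (z.1 1 - A (z.1 0 - c z.2, z.2)) / U (z.1 0 - c z.2, z.2)) 0 :=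
    ((h17 1).sub (h19 A h5)).div (h19 U h6) (by simp [h9, Prod.mk_zero_zero, h15])
  refine ⟨fun w => ![u w, v w], fun z _ => φ (z.1 0, z.2), fun z => ![z.1 0 - c z.2,
    (z.1 1 - A (z.1 0 - c z.2, z.2)) / U (z.1 0 - c z.2, z.2), z.1 2 - C (z.1 0 - c z.2, z.2) -
      (z.1 1 - A (z.1 0 - c z.2, z.2)) / U (z.1 0 - c z.2, z.2) * E (z.1 0 - c z.2, z.2)],
    analyticAt_pi_iff.2 fun i => ?_, by simp [h10, h11], ⟨analyticAt_pi_iff.2 fun _ =>
      comp0 h1 h16 rfl, ?_⟩, ⟨analyticAt_pi_iff.2 fun i => ?_, ?_⟩, ?_⟩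
  · fin_cases i
    exacts [h3, h4]
  · filter_upwards [ev0 (f := fun x : Fin 1 → ℂ => x 0) h12 (continuous_apply 0).continuousAt rfl]
      with x hx
    simp only [hx, const_coord, id]
  · fin_cases i
    exacts [h18, h20, ((h17 2).sub (h19 C h7)).sub (h20.mul (h19 E h8))]
  · filter_upwards [ev0 (f := fun x : Fin 3 → ℂ => x 0) h13 (continuous_apply 0).continuousAt rfl]
      with x hx
    funext i
    fin_cases i <;> simp [h9, hx]
  · have h21 : φ 0 = 0 := h12.self_of_nhds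
    have h22 : ∀ᶠ z in 𝓝 0, U z ≠ 0 := h6.continuousAt.eventually_ne (by simp [h15])
    filter_upwards [ev0 h14 h16.continuousAt rfl, ev0 (ev0 (f := fun z => (φ z ^ 2, z.2)) h22
      ((h1.continuousAt.pow 2).prodMk continuousAt_snd) (by simp [h21])) h16.continuousAt rfl]
      with z ⟨e1, e2, e3⟩ e4
    simp only [const_coord, Prod.mk.eta] at e1 e2 e3 e4
    funext i
    fin_cases i <;> simp [unf, e1, e2, e3, e4]
    ring

section
variable {Y : Type} [TopologicalSpace Y]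

theorem simplex_zero (s : C(stdSimplex ℝ (Fin 1), Y)) :
    s = ContinuousMap.const _ (s (stdSimplex.vertex 0)) := by
  ext x; rw [Subsingleton.elim x (stdSimplex.vertex 0)]; rfl

theorem bd_single {q : ℕ} (s : C(stdSimplex ℝ (Fin (q + 2)), Y)) (a : ℤ) :
    bd Y q (Finsupp.single s a) =
      ∑ i : Fin (q + 2), (-1 : ℤ) ^ (i : ℕ) • Finsupp.single (s.comp (face i)) a := by
  simp [bd, LinearMap.sum_apply, Finsupp.mapDomain_single]

theorem bd_zero (s : C(stdSimplex ℝ (Fin 2), Y)) (a : ℤ) : bd Y 0 (Finsupp.single s a) =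
    Finsupp.single (ContinuousMap.const _ (s (stdSimplex.vertex 1))) a -
      Finsupp.single (ContinuousMap.const _ (s (stdSimplex.vertex 0))) a := by
  rw [bd_single, Fin.sum_univ_two, simplex_zero (s.comp (face 0)), simplex_zero (s.comp (face 1))]
  simp [face, sub_eq_add_neg]

theorem bd_bd (c : Chain Y 2) : bd Y 0 (bd Y 1 c) = 0 := by
  induction c using Finsupp.induction_linear with
  | zero => simp
  | add c d hc hd => simp [hc, hd]
  | single s a =>
    rw [bd_single, Fin.sum_univ_three]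
    simp only [map_add, map_smul, bd_zero]
    simp [face, Fin.succAbove]

theorem bd_of_finite [T1Space Y] {A : Set Y} (hA : A.Finite) {c : Chain Y 1}
    (hc : c ∈ Finsupp.supported ℤ ℤ {s : C(stdSimplex ℝ (Fin 2), Y) | Set.range s ⊆ A}) :
    bd Y 0 c = 0 := by
  rw [Finsupp.supported_eq_span_single] at hc
  induction hc using Submodule.span_induction with
  | mem x hx =>
    obtain ⟨s, hs, rfl⟩ := hx
    rw [bd_zero, isPreconnected_univ.constant_of_mapsTo hA.isDiscrete s.continuous.continuousOn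
      (fun x _ => hs ⟨x, rfl⟩) (Set.mem_univ (stdSimplex.vertex 1)) (Set.mem_univ (stdSimplex.vertex 0)),
      sub_self]
  | zero => simp
  | add x y _ _ hx hy => simp [hx, hy]
  | smul a x _ hx => simp [hx]

end

theorem mem_alt {X : Type} [TopologicalSpace X] {A : Set (Fin 2 → X)} {q : ℕ}
    (s : C(stdSimplex ℝ (Fin (q + 1)), Fin 2 → X)) (h1 : Set.range s ⊆ A)
    (h2 : Set.range ((permute (Equiv.swap 0 1)).comp s) ⊆ A) :
    Finsupp.single s 1 - Finsupp.single ((permute (Equiv.swap 0 1)).comp s) 1 ∈ altChains A q := by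
  refine ⟨sub_mem (Finsupp.single_mem_supported _ _ h1) (Finsupp.single_mem_supported _ _ h2),
    (Submodule.mem_iInf _).2 fun σ => ?_⟩
  have h4 : ∀ s : C(stdSimplex ℝ (Fin (q + 1)), Fin 2 → X), (permute 1).comp s = s := fun _ => rfl
  have h5 : (permute (Equiv.swap 0 1)).comp ((permute (Equiv.swap 0 1)).comp s) = s := by
    ext x i; simp [permute]
  have h6 : σ = 1 ∨ σ = Equiv.swap 0 1 := by revert σ; decide
  rw [LinearMap.mem_eqLocus, map_sub]
  rcases h6 with rfl | rfl <;> simp [Finsupp.mapDomain_single, h4, h5]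

noncomputable def pt (x : ℂ) : Fin 2 → (Fin 1 → ℂ) × (Fin 2 → ℂ) :=
  ![(fun _ => x, ![-x ^ 2, 0]), (fun _ => -x, ![-x ^ 2, 0])]

theorem continuous_pt : Continuous pt := by unfold pt; fun_prop

theorem swap_pt (x : ℂ) : permute (Equiv.swap 0 1) (pt x) = pt (-x) := by
  funext i; fin_cases i <;> simp [permute, pt]

theorem eq_pt {U : Set ((Fin 1 → ℂ) × (Fin 2 → ℂ))} {x : Fin 2 → (Fin 1 → ℂ) × (Fin 2 → ℂ)}
    (hx : x ∈ multPts 2 (fun z => (unf z, z.2)) U) : x = pt ((x 0).1 0) := by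
  refine closure_minimal (t := {x | x = pt ((x 0).1 0)}) ?_
    (isClosed_eq continuous_id (continuous_pt.comp (by fun_prop))) hx.2
  rintro x ⟨-, h1, h2⟩
  obtain ⟨h3, h4⟩ := Prod.ext_iff.1 (h2 0 1)
  have h5 : (x 0).1 0 - (x 1).1 0 ≠ 0 := fun h => zero_ne_one (h1 (Prod.ext
    (by rw [← const_coord (x 0).1, sub_eq_zero.1 h, const_coord]) h4))
  have e0 := congrFun h3 0
  have e1 := congrFun h3 1
  have e2 := congrFun h3 2
  simp only [unf, ← show (x 0).2 = (x 1).2 from h4] at e0 e1 e2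
  simp only [Matrix.cons_val_zero, Matrix.cons_val_one, Matrix.cons_val] at e0 e1 e2
  have f0 : (x 1).1 0 = -(x 0).1 0 := mul_left_cancel₀ h5 (by linear_combination e0)
  have f1 : (x 0).2 0 = -(x 0).1 0 ^ 2 := mul_left_cancel₀ h5 (by
    rw [f0] at e1 ⊢; linear_combination e1)
  have f2 : (x 0).2 1 = 0 := mul_left_cancel₀ h5 (by linear_combination e2)
  have f3 : (x 0).2 = ![-(x 0).1 0 ^ 2, 0] := by
    funext i; fin_cases i
    exacts [f1, f2]
  funext i
  fin_cases i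
  · exact Prod.ext (const_coord _).symm f3
  · exact Prod.ext (by rw [← const_coord (x _).1]; exact funext fun _ => f0) (h4.symm.trans f3)

theorem unexpected {U : Set ((Fin 1 → ℂ) × (Fin 2 → ℂ))} (hU : U ∈ 𝓝 0) :
    ∀ᶠ t in 𝓝[≠] (0 : ℂ), Unexpected unf U ![t, 0] := by
  have h1 : ∀ᶠ x in 𝓝 (0 : ℂ), ∀ i, pt x i ∈ U := eventually_all.2 fun i =>
    ev0 (f := fun x => pt x i) hU ((continuous_apply i).comp continuous_pt).continuousAt
      (by fin_cases i <;> simp [pt] <;> rfl)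
  have h2 : ∀ x ≠ 0, (∀ i, pt x i ∈ U) → pt x ∈ {x : Fin 2 → (Fin 1 → ℂ) × (Fin 2 → ℂ) |
      (∀ i, x i ∈ U) ∧ Function.Injective x ∧ ∀ i j, (unf (x i), (x i).2) = (unf (x j), (x j).2)} := by
    refine fun x hx h => ⟨h, fun i j e => ?_, fun i j => ?_⟩
    · have e' := congrFun (Prod.ext_iff.1 e).1 0
      fin_cases i <;> fin_cases j
      exacts [rfl, (hx (self_eq_neg.1 e')).elim, (hx (self_eq_neg.1 e'.symm)).elim, rfl]
    · fin_cases i <;> fin_cases j <;> simp [pt, unf] <;> ring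
  obtain ⟨ε, hε, h3⟩ := Metric.eventually_nhds_iff_ball.1 h1
  have h4 : ∀ x : ℂ, ‖x‖ < ε → pt x ∈ multPts 2 (fun z => (unf z, z.2)) U := by
    refine fun x hx => ⟨h3 x (mem_ball_zero_iff.2 hx), ?_⟩
    by_cases h : x = 0
    · subst h
      refine mem_closure_of_tendsto (b := 𝓝[≠] (0 : ℂ))
        (continuous_pt.continuousAt.tendsto.mono_left nhdsWithin_le_nhds) ?_
      filter_upwards [h1.filter_mono nhdsWithin_le_nhds, self_mem_nhdsWithin] with y e1 e2
        using h2 y e2 e1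
    · exact subset_closure (h2 x h (h3 x (mem_ball_zero_iff.2 hx)))
  filter_upwards [mem_nhdsWithin_of_mem_nhds (Metric.ball_mem_nhds 0 (sq_pos_of_pos hε)),
    self_mem_nhdsWithin] with t h5 h6
  obtain ⟨s, hs⟩ : ∃ s, s ^ 2 = -t := ⟨_, Complex.cpow_nat_inv_pow _ two_ne_zero⟩
  obtain rfl : t = -s ^ 2 := by rw [hs, neg_neg]
  rw [mem_ball_zero_iff, norm_neg, norm_pow, sq_lt_sq₀ (norm_nonneg _) hε.le] at h5
  have h7 : s ≠ 0 := by rintro rfl; simp at h6
  refine ⟨by decide, 2, by decide, Submodule.Quotient.nontrivial_iff.2 fun h => ?_⟩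
  let γ : C(stdSimplex ℝ (Fin 2), Fin 2 → (Fin 1 → ℂ) × (Fin 2 → ℂ)) :=
    ⟨fun l => pt ((l.1 1 : ℝ) * s), continuous_pt.comp ((Complex.continuous_ofReal.comp
      ((continuous_apply 1).comp continuous_subtype_val)).mul continuous_const)⟩
  have h8 : ∀ l : stdSimplex ℝ (Fin 2), ‖((l.1 1 : ℝ) : ℂ) * s‖ < ε := fun l => by
    rw [norm_mul, Complex.norm_real, Real.norm_of_nonneg (l.2.1 1)]
    exact (mul_le_of_le_one_left (norm_nonneg _) (stdSimplex.le_one l 1)).trans_lt h5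
  have h9 : bd _ 0 (Finsupp.single γ 1 - Finsupp.single ((permute (Equiv.swap 0 1)).comp γ) 1) =
      Finsupp.single (ContinuousMap.const _ (pt s)) 1 -
        Finsupp.single (ContinuousMap.const _ (pt (-s))) 1 := by
    simp [bd_zero, γ, swap_pt]
  have h10 : ∀ x : ℂ, ‖x‖ < ε → x ^ 2 = s ^ 2 → pt x ∈ {x ∈ multPts 2 (fun z => (unf z, z.2)) U |
      ∀ i, (x i).2 = ![-s ^ 2, 0]} := fun x e1 e2 => ⟨h4 x e1, fun i => by
    fin_cases i <;> simp [pt, e2]⟩
  obtain ⟨_, ⟨b, -, rfl⟩, a, ha, h11⟩ := Submodule.mem_sup.1 (Submodule.submoduleOf_eq_top.1 h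
    ⟨mem_alt γ (by rintro _ ⟨l, rfl⟩; exact h4 _ (h8 l)) (by
      rintro _ ⟨l, rfl⟩
      exact swap_pt _ ▸ h4 _ (by rw [norm_neg]; exact h8 l)), by
      rw [SetLike.mem_coe, Submodule.mem_comap, h9, ← swap_pt]
      exact mem_alt (ContinuousMap.const _ (pt s)) (by rintro _ ⟨l, rfl⟩; exact h10 s h5 rfl) (by
        rintro _ ⟨l, rfl⟩
        exact swap_pt _ ▸ h10 (-s) (by rwa [norm_neg]) (neg_sq s))⟩)
  rw [← h11, map_add, bd_bd, bd_of_finite (A := {pt s, pt (-s)}) (Set.toFinite _)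
    (Finsupp.supported_mono (fun σ hσ => Set.Subset.trans hσ fun x hx => ?_) ha.1), add_zero, eq_comm,
    sub_eq_zero, Finsupp.single_left_inj one_ne_zero] at h9
  · have := congrFun (congrArg Prod.fst (congrFun (DFunLike.congr_fun h9 (stdSimplex.vertex 0)) 0)) 0
    exact h7 (self_eq_neg.1 this)
  · have e1 := eq_pt hx.1
    have e2 := congrFun (hx.2 0) 0
    rw [e1] at e2 ⊢
    rcases sq_eq_sq_iff_eq_or_eq_neg.1 (neg_injective e2) with h | h
    exacts [Or.inl (congrArg pt h), Or.inr (congrArg pt h)]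

end Pool.Agent.P.MP_622402_ag
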